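import Pool.Agent.J4H78.TS.Near

/-!
# Near every long path of the light cone all words are shown

Consider the space-time diagram of a nonzero finite configuration `x`: the cell `(n, p)` carries the digit of
`F^n x` at the position `p`.  The digits live in the light cone `-κ n ≤ p ≤ n + const`,
`κ = log (3/2) / log 6`.  Call a cell `(n, p)` full if every word of length at most `L` is shown at each of the
positions `p, …, p + M - 1` at a time between `n` and `n + T`.

For all `L`, `M` there are `R`, `T`, which do not depend on `x`, such that for every `ε > 0` and all large `N`
(depending on `x` and `ε`): every path of neighbouring cells in the light cone reduced by `ε N`, at times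
up to `N`, along which the height `p + κ n` changes by at least `ε N`, passes at distance at most `R` from a
full cell.  There are no exceptional rows, columns or lines: for instance every column (and every row,
and every line not parallel to the left edge of the cone) comes within the constant distance `R` of a
full cell in each of its intervals of length `ε' N`.  For a fixed position `p` the column paths show
that full cells with positions in `[p - R, p + R]` occur in every time interval `[n, (1 + ε) n]`, `n` large.

Proof: by Furstenberg's theorem and compactness a cell is at distance at most `R` from a full cell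
unless its fractional part is near a finite set `Y` of rational numbers invariant under the multiplications by `4`
and by `9`; along a path of cells near `Y` the error is multiplied exactly by `6 ^ (change of the height)`;
and an exponentially small error contradicts Ridout's theorem.
-/

set_option autoImplicit false

namespace Pool.Agent.Results.MP_cc0c1a_nt.NearEveryPath

open Pool.Agent.H429R2.Auto

/-- `x` shows the word `w` starting at the position `p`. -/
def Shows (x : Conf) (w : List (Fin 6)) (p : ℤ) : Prop :=
  ∀ (i : ℕ) (h : i < w.length), x (p + i) = w[i]

/-- The cell `(n, p)` is full: every word of length at most `L` is shown in the orbit of `x` starting at each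
of the positions `p, …, p + M - 1`, at a time between `n` and `n + T`. -/
def Full (x : Conf) (L M T : ℕ) (p : ℤ) (n : ℕ) : Prop :=
  ∀ s < M, ∀ w : List (Fin 6), w.length ≤ L → ∃ t ≤ T, Shows (F^[n + t] x) w (p + (s : ℕ))

/-- the slope of the left edge of the light cone -/
noncomputable def κ : ℝ := Real.log (3 / 2) / Real.log 6

/-- the cells `(n t, p t)`, `t = 0, …, l`, form a path: the coordinates of consecutive cells differ by at
most one -/
def IsPath (l : ℕ) (n : ℕ → ℕ) (p : ℕ → ℤ) : Prop :=
  ∀ t < l, |((n (t + 1) : ℕ) : ℤ) - n t| ≤ 1 ∧ |p (t + 1) - p t| ≤ 1

/-- the cell `(n, p)` is in the light cone reduced by `d` -/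
def InCone (d : ℝ) (n : ℕ) (p : ℤ) : Prop := -(κ * n) + d ≤ p ∧ (p : ℝ) ≤ n - d

/-- For all `L`, `M` there are `R`, `T` such that for every nonzero finite configuration `x`, every `ε > 0` and
all large `N`: every path of cells in the light cone reduced by `ε N` at times up to `N`, whose endpoints have
heights `p + κ n` that differ by at least `ε N`, has a cell `(n t, p t)` for which there is a full cell
`(n', p')` with `|n' - n t| ≤ R` and `|p' - p t| ≤ R`. -/
theorem result (L M : ℕ) : ∃ R T : ℕ, ∀ x : Conf, IsFin x → x ≠ 0 → ∀ ε : ℝ, 0 < ε →
    ∃ N₀ : ℕ, ∀ N ≥ N₀, ∀ (l : ℕ) (n : ℕ → ℕ) (p : ℕ → ℤ), IsPath l n p →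
    (∀ t ≤ l, n t ≤ N ∧ InCone (ε * N) (n t) (p t)) →
    ε * N ≤ |((p l : ℝ) + κ * n l) - (p 0 + κ * n 0)| →
    ∃ t ≤ l, ∃ (n' : ℕ) (p' : ℤ), |(n' : ℤ) - n t| ≤ R ∧ |p' - p t| ≤ R ∧ Full x L M T p' n' :=
  Pool.Agent.J4H78.TS.near L M

end Pool.Agent.Results.MP_cc0c1a_nt.NearEveryPath
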