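import Pool.Agent.J4H78.NW.Final

/-!
# Normal frequencies at almost all positions near both edges of the light cone

Let `x` be a nonzero finite configuration. In the orbit of `x` the nonzero digits fill the cone of the cells
`(n, p)` with `-n log_6 (3/2) ≤ p ≤ n` (up to a bounded error); the position `j ≥ 0` enters the cone at the time
`j` and the position `-j` at the time `κ j`, `κ = log 6 / log (3/2)`. For all but `X ^ (1 - δ)` of the
positions `0 ≤ j ≤ X`, during the first `log X` steps after the time `j`, every word of length `L` is shown at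
the position `j` with the frequency `6 ^ (-L)` up to `ε`, in EVERY window of at least `ε log X` consecutive times.
The same holds for all but `X ^ (1 - δ)` of the positions `-j`, `1 ≤ j ≤ X`, during the first `log X` steps after
the time `⌈κ j⌉ + t₀`, where `t₀ ≤ C (log X) ^ 2` depends on `X` only.

In particular (`ε < 6 ^ (-L)`) all but `O(X ^ (1 - δ))` of the positions `|p| ≤ X`, ON BOTH SIDES of the origin,
are such that every word of length `L` is shown at the position `p`, and this happens within
`O((log X) ^ 2)` steps (on the right: `log X` steps) after the position enters the cone.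

Proof: on the right the values are `c_q + g_q u_i / 2 ^ q` modulo one, `g_q` odd, `u_i = (9 ^ i - 1) / 8`, and the
`u_i`, `i ≤ X`, are equidistributed modulo `2 ^ T`; on the left they are `μ ^ t z_j`, `μ = 3/2`, with
`z_j = γ μ ^ (⌈κ j⌉ - κ j)`, which fall by the irrationality of `κ` into families of well spaced points. In both cases
there are large deviation estimates (exponential moments over blocks of digits). The size of `t₀` comes from
a lower bound for linear forms in `log 2`, `log 3` (`Pool.Agent.H440R2.lfl` of the starting files).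
-/

set_option autoImplicit false

namespace Pool.Agent.Results.MP_cc0c1a_nt.NormalNearEdges

open Pool.Agent.H429R2.Auto

/-- `x` shows the word `w` starting at the position `j`. -/
def Shows (x : Conf) (w : List (Fin 6)) (j : ℤ) : Prop :=
  ∀ (i : ℕ) (h : i < w.length), x (j + i) = w[i]

open Classical in
/-- During the times from `n₀` to `n₀ + M` every word of length `L` is shown at the position `j` in the orbit of `x`
with the frequency `6 ^ (-L)` up to `ε`, in all windows of at least `ε M` consecutive times. -/
def Normal (x : Conf) (L : ℕ) (ε M : ℝ) (j : ℤ) (n₀ : ℕ) : Prop :=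
  ∀ w : List (Fin 6), w.length = L → ∀ s T : ℕ, ε * M ≤ T → (s : ℝ) + T ≤ M →
    |(((Finset.range T).filter (fun t => Shows (F^[n₀ + (s + t)] x) w j)).card : ℝ) - T / 6 ^ L| ≤ ε * T

/-- the position `-j` enters the cone at the time `slope * j` -/
noncomputable def slope : ℝ := Real.log 6 / Real.log (3 / 2)

open Classical in
theorem result (x : Conf) (hfin : IsFin x) (hx0 : x ≠ 0) (L : ℕ) (ε : ℝ) (hε : 0 < ε) :
    ∃ (δ C : ℝ) (X₀ : ℕ), 0 < δ ∧ ∀ X : ℕ, X₀ ≤ X →
      (((Finset.range (X + 1)).filter (fun j : ℕ => ¬ Normal x L ε (Real.log X) j j)).card : ℝ) ≤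
        (X : ℝ) ^ (1 - δ) ∧
      ∃ t₀ : ℕ, (t₀ : ℝ) ≤ C * (Real.log X) ^ 2 ∧
      (((Finset.Icc 1 X).filter (fun j : ℕ =>
        ¬ Normal x L ε (Real.log X) (-(j : ℤ)) (⌈slope * j⌉₊ + t₀))).card : ℝ) ≤ (X : ℝ) ^ (1 - δ) :=
  Pool.Agent.J4H78.NW.final x hfin hx0 L ε hε

end Pool.Agent.Results.MP_cc0c1a_nt.NormalNearEdges
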