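import Pool.Agent.J4H40.Gg

set_option autoImplicit false

/-!
# Random configurations and configurations with restricted digits

`F` is the automaton of the multiplication by `3/2` in base `6`. We consider random configurations with independent digits
(`Rand`; deterministic digits are allowed) and the sets `Fam` of all configurations which have digits in given sets `A i` at
the positions `i` of a finite window and agree with a given configuration elsewhere; for instance the finite configurations
with digits `0` and `1` only. Let `κ = log(3/2)/log 6`, and let `T` be any set of times.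

(1) If no value of a digit `x_i`, `1 ≤ i ≤ κ N`, has probability more than `1 - c`, then with probability at least
`1 - C exp(-δ N)` the words of length `L` are shown by the configurations `F^n(x)`, `n ∈ T`, `n < N`, at all positions `|j| ≤ J`
with the right frequencies, up to `ε N`; `C` and `δ` depend only on `L`, `J`, `c`, `ε`.
(2) Hence all but at most the proportion `C exp(-δ N)` of the members of every family `Fam` with `|A i| ≥ 2` for `1 ≤ i ≤ κ N`
have this property.
(3) If no value of a digit `x_i`, `i ≥ 1`, has probability more than `1 - c`, then almost surely all words are shown at all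
positions with the right frequency along ALL sets of times of zero entropy simultaneously (`ZeroEntropy`; for instance along
all the times, so that the orbit is dense, along all arithmetic progressions, all Beatty sequences).
(2) and (3) are the forms of (1) for counting and for almost all configurations. The law at every single time (by another
method, Ridout's theorem) is `Pool.Agent.J4H40.Rd.word_law` in the library.

Proof of (1): the digits `x_i`, `i > κ n + C`, have almost no influence on the window at the time `n`, and conditionally on the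
digits `x_i`, `i ≤ κ n - D`, the mean of `exp(2 π i h (3/2)^n 6^j ∑ x_i 6^(-i))` is small, for most `n`, because the leading
base `6` digits of `h (3/2)^n 6^j` are equidistributed (`κ` is irrational). So the times in an arithmetic progression behave
like martingale differences.
-/

namespace Pool.Agent.Results.MP_cc0c1a_nt.RestrictedDigits

open MeasureTheory ProbabilityTheory Filter Topology

/-- configurations -/
abbrev Conf := ℤ → Fin 6

/-- the local rule `f(s,t) = (3s mod 6) + ⌊3t/6⌋` -/
def f (s t : Fin 6) : Fin 6 := ⟨(3 * (s : ℕ)) % 6 + (3 * (t : ℕ)) / 6, by omega⟩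

/-- the automaton `F_{×3}` -/
def mul3 (x : Conf) : Conf := fun i => f (x i) (x (i + 1))

/-- the right shift -/
def shiftR (x : Conf) : Conf := fun i => x (i - 1)

/-- the automaton `F = F_{×3} ∘ F_{×3} ∘ σ⁻¹` -/
def F (x : Conf) : Conf := mul3 (mul3 (shiftR x))

/-- `x` shows the word `w` starting at the position `j` -/
def Shows {L : ℕ} (x : Conf) (w : Fin L → Fin 6) (j : ℤ) : Prop := ∀ s : Fin L, x (j + ((s : ℕ) : ℤ)) = w s

/-- a random configuration with independent digits, no value of a digit `x_i` with `lo ≤ i ≤ hi` has probability more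
than `1 - c` -/
def Rand {Ω : Type} [MeasurableSpace Ω] (μ : Measure Ω) (x : Ω → Conf) (c lo hi : ℝ) : Prop :=
  (∀ i, Measurable fun ω => x ω i) ∧ iIndepFun (fun (i : ℤ) ω => x ω i) μ ∧
    ∀ i : ℤ, lo ≤ i → i ≤ hi → ∀ v : Fin 6, μ.real {ω | x ω i = v} ≤ 1 - c

/-- the configurations with digits in the sets `A i` at the positions `i` of the window `W`, which agree with the
configuration `y` outside of the window -/
def Fam (W : Finset ℤ) (A : ℤ → Finset (Fin 6)) (y : Conf) : Set Conf := {x | (∀ i ∈ W, x i ∈ A i) ∧ ∀ i ∉ W, x i = y i}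

/-- zero topological entropy: for every `ε > 0` there is a length `m ≥ 1` such that at most `exp (ε m)` patterns
`{i < m | k + i ∈ T}` occur -/
def ZeroEntropy (T : Set ℕ) : Prop :=
  ∀ ε : ℝ, 0 < ε → ∃ m : ℕ, 1 ≤ m ∧ (({P : Set ℕ | ∃ k : ℕ, P = {i | i < m ∧ k + i ∈ T}}.ncard : ℕ) : ℝ) ≤ Real.exp (ε * m)

/-- the number of times `n < N` in `T` -/
noncomputable def size (T : Set ℕ) (N : ℕ) : ℕ := {n : ℕ | n < N ∧ n ∈ T}.ncard

/-- the number of times `n < N` in `T` such that `F^n(x)` shows `w` at `j` -/
noncomputable def visits {L : ℕ} (T : Set ℕ) (x : Conf) (w : Fin L → Fin 6) (j : ℤ) (N : ℕ) : ℕ :=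
  {n : ℕ | n < N ∧ n ∈ T ∧ Shows (F^[n] x) w j}.ncard

open Classical in
lemma size_eq (T : Set ℕ) (N : ℕ) : size T N = ((Finset.range N).filter fun n => n ∈ T).card := by
  unfold size
  rw [← Set.ncard_coe_finset]
  congr 1
  ext n
  rw [Finset.mem_coe, Finset.mem_filter, Finset.mem_range]
  exact Iff.rfl

open Classical in
lemma visits_eq {L : ℕ} (T : Set ℕ) (x : Conf) (w : Fin L → Fin 6) (j : ℤ) (N : ℕ) :
    visits T x w j N = (((Finset.range N).filter fun n => n ∈ T).filter fun n =>
      Pool.Agent.J4H40.Rd.Shows (Pool.Agent.H429R2.Auto.F^[n] x) w j).card := by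
  unfold visits
  rw [← Set.ncard_coe_finset]
  congr 1
  ext n
  rw [Finset.mem_coe, Finset.mem_filter, Finset.mem_filter, Finset.mem_range]
  constructor
  · rintro ⟨h1, h2, h3⟩
    exact ⟨⟨h1, h2⟩, h3⟩
  · rintro ⟨⟨h1, h2⟩, h3⟩
    exact ⟨h1, h2, h3⟩

/-- **Random configurations and configurations with restricted digits.** -/
theorem result (L J : ℕ) (c ε : ℝ) (hc : 0 < c) (hε : 0 < ε) :
    -- (1) random configurations, frequencies along sets of times
    (∃ C : ℝ, 0 < C ∧ ∃ δ : ℝ, 0 < δ ∧ ∀ (N : ℕ) (Ω : Type) [MeasurableSpace Ω] (μ : Measure Ω) [IsProbabilityMeasure μ]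
      (x : Ω → Conf), Rand μ x c 1 (Real.log (3 / 2) / Real.log 6 * N) → ∀ T : Set ℕ,
      μ.real {ω | ¬ ∀ (w : Fin L → Fin 6) (j : ℤ), |j| ≤ J → |(visits T (x ω) w j N : ℝ) - size T N / 6 ^ L| ≤ ε * N} ≤
        C * Real.exp (-(δ * N))) ∧
    -- (2) restricted digits, frequencies along sets of times
    (∃ C : ℝ, 0 < C ∧ ∃ δ : ℝ, 0 < δ ∧ ∀ (N : ℕ) (W : Finset ℤ) (A : ℤ → Finset (Fin 6)) (y : Conf),
      (∀ i ∈ W, (A i).Nonempty) → (∀ i : ℤ, 1 ≤ i → i ≤ Real.log (3 / 2) / Real.log 6 * N → i ∈ W ∧ 2 ≤ (A i).card) → ∀ T : Set ℕ,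
      ({x ∈ Fam W A y | ¬ ∀ (w : Fin L → Fin 6) (j : ℤ), |j| ≤ J → |(visits T x w j N : ℝ) - size T N / 6 ^ L| ≤ ε * N}.ncard : ℝ) ≤
        C * Real.exp (-(δ * N)) * (Fam W A y).ncard) ∧
    -- (3) random configurations, frequencies along all sets of times of zero entropy, almost surely
    (∀ (Ω : Type) [MeasurableSpace Ω] (μ : Measure Ω) [IsProbabilityMeasure μ] (x : Ω → Conf), (∀ r : ℝ, Rand μ x c 1 r) →
      ∀ᵐ ω ∂μ, ∀ T : Set ℕ, ZeroEntropy T → ∀ (l : ℕ) (w : Fin l → Fin 6) (j : ℤ),
        Tendsto (fun N : ℕ => ((visits T (x ω) w j N : ℝ) - size T N / 6 ^ l) / N) atTop (𝓝 0)) := by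
  classical
  refine ⟨?_, ?_, ?_⟩
  · obtain ⟨C, hC, δ, hδ, h⟩ := Pool.Agent.J4H40.Rd.large_dev L J hc hε
    refine ⟨C, hC, δ, hδ, fun N Ω _ μ _ x hx T => ?_⟩
    simp only [visits_eq, size_eq]
    exact h N Ω μ x hx.1 hx.2.1 (fun i h1 h2 v => hx.2.2 i (by exact_mod_cast h1) h2 v) _ (Finset.filter_subset _ _)
  · obtain ⟨C, hC, δ, hδ, h⟩ := Pool.Agent.J4H40.Rd.count_dev L J hε
    refine ⟨C, hC, δ, hδ, fun N W A y hA hW T => ?_⟩
    simp only [visits_eq, size_eq]
    exact h N W A y hA hW _ (Finset.filter_subset _ _)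
  · intro Ω _ μ _ x hx
    simp only [visits_eq, size_eq]
    exact Pool.Agent.J4H40.Rd.ae_zero hc μ x (hx 0).1 (hx 0).2.1 (fun i h1 v => (hx i).2.2 i (by exact_mod_cast h1) le_rfl v)

end Pool.Agent.Results.MP_cc0c1a_nt.RestrictedDigits
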