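import Pool.Agent.J4H78.TS.Shows

/-!
# The positions at which all words are shown infinitely often form a thickly syndetic set

For all `L`, `M`, `k` there are `R` and `T` with the following property.  Let `x_1, …, x_k` be ANY nonzero
finite configurations (or more generally base 6 expansions of positive real numbers).  Every interval of
`R + 1` consecutive positions contains a position `j` such that for each `x_i` there are infinitely
many times `n` such that, during the times `n, …, n + T`, every word of length at most `L` is shown in the
orbit of `x_i` at each of the positions `j, j + 1, …, j + M - 1`.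

The numbers `R` and `T` do not depend on the configurations.  So the positions at which all words of
length `L` are shown infinitely often form a thickly syndetic set, and for every `ε > 0` the orbits
of the shifts of a nonzero finite configuration are `ε`-dense for a set of shifts with bounded gaps;
the question is whether this holds for all shifts.

Proof: Furstenberg's theorem on the multiplications by `4` and `9` and compactness show that for an open
set `V` of the circle there is a finite set `Y` such that all points away from `Y` are moved into `V` by one of the
multipliers `4 ^ i 9 ^ k`, `i + k ≤ R`; the orbits of the multiplication by `3/2` are away from `Y`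
infinitely often, uniformly (Vijayaraghavan's argument, in the starting files); and
`4 ^ i 9 ^ k (3/2) ^ n = 6 ^ (i + k) (3/2) ^ (n + k - i)`.
-/

set_option autoImplicit false

namespace Pool.Agent.Results.MP_cc0c1a_nt.ThicklySyndetic

open Pool.Agent.H429R2.Auto

/-- `x` shows the word `w` starting at the position `j`. -/
def Shows (x : Conf) (w : List (Fin 6)) (j : ℤ) : Prop :=
  ∀ (i : ℕ) (h : i < w.length), x (j + i) = w[i]

/-- Every word of length at most `L` is shown in the orbit of `x` starting at each of the positions
`j, …, j + M - 1`, at a time between `n` and `n + T`. -/
def Full (x : Conf) (L M T : ℕ) (j : ℤ) (n : ℕ) : Prop :=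
  ∀ s < M, ∀ w : List (Fin 6), w.length ≤ L → ∃ t ≤ T, Shows (F^[n + t] x) w (j + (s : ℕ))

/-- `x` is the base 6 expansion of a positive real number `β`: the digit at the position `i` is
`⌊6 ^ i β⌋ mod 6`. -/
def IsExpansion (x : Conf) : Prop :=
  ∃ β : ℝ, 0 < β ∧ ∀ i : ℤ, ((x i : Fin 6) : ℕ) = ⌊(6 : ℝ) ^ i * β⌋₊ % 6

/-- Nonzero finite configurations are expansions of positive real numbers. For all `L`, `M`, `k` there
are `R` and `T` such that for all `x_1, …, x_k` that are expansions of positive real numbers, every
interval `[a, a + R]` of positions contains a `j` such that, for each `x_i`, for infinitely many times `n` every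
word of length at most `L` is shown in the orbit of `x_i` at each of the positions
`j, …, j + M - 1` at a time between `n` and `n + T`. -/
theorem result :
    (∀ x : Conf, IsFin x → x ≠ 0 → IsExpansion x) ∧
    ∀ L M k : ℕ, ∃ R T : ℕ, ∀ x : Fin k → Conf, (∀ i, IsExpansion (x i)) → ∀ a : ℤ,
      ∃ j : ℤ, a ≤ j ∧ j ≤ a + R ∧ ∀ i, {n : ℕ | Full (x i) L M T j n}.Infinite := by
  refine ⟨fun x hx hx0 => ?_, fun L M k => ?_⟩
  · obtain ⟨m, l, hrep, hm, -⟩ := exists_rep hx
    have hm0 : (0 : ℝ) < m := by exact_mod_cast hm hx0
    exact ⟨(m : ℝ) / 6 ^ l, by positivity, hrep⟩
  · exact Pool.Agent.J4H78.TS.several L M k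

end Pool.Agent.Results.MP_cc0c1a_nt.ThicklySyndetic
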